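import Pool.Agent.Lib.FBC.T7.C.Nat0

/-!
The ribbon tree of the flags of level zero.
-/

namespace Pool.Agent.Lib.FBC.T7C

open Forest Relation T7B

/-- the quotient by an invariant relation -/
def QQ {K X : Type} [Group K] [MulAction K X] {r : X → X → Prop}
    (_h : ∀ (u : K) a b, r a b → r (u • a) (u • b)) : Type := Quot r

instance {K X : Type} [Group K] [MulAction K X] {r : X → X → Prop}
    (h : ∀ (u : K) a b, r a b → r (u • a) (u • b)) : MulAction K (QQ h) where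
  smul u := Quot.map (u • ·) (h u)
  one_smul := Quot.ind fun a => congrArg (Quot.mk r) (one_smul K a)
  mul_smul u v := Quot.ind fun a => congrArg (Quot.mk r) (mul_smul u v a)

variable {G : Type} [Group G] {d : Dg G} {Y : Forest d} {s : Flow Y} {k : ℕ}
  {hk : s.Pairing k} {ν : F0 s → F0 s} {sd : s.Flag → s.Flag → Prop}

lemma opp_cases (hk : s.Pairing k) {a b : F0 s} (h : a.1.Opp b.1) : b = a ∨ b = op0 hk a :=
  (eq_or_ne b a).imp_right fun e => Subtype.ext (eq_op hk (fun t => e (Subtype.ext t)) h)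

lemma Nu.lk (N : Nu hk ν) (u : d.ker) (a b : F0 s) (h : b = op0 hk a ∨ b = ν a) :
    u • b = op0 hk (u • a) ∨ u • b = ν (u • a) := by
  rcases h with rfl | rfl
  · exact Or.inl (Subtype.ext (op_smul hk _ _).symm)
  · exact Or.inr (N.smul u a).symm

/-- vertices -/
abbrev Nu.V (N : Nu hk ν) : Type := QQ N.lk

/-- darts -/
abbrev DD (s : Flow Y) : Type :=
  QQ (r := fun a b : F0 s => a.1.Opp b.1) fun (u : d.ker) _ _ h => opp_smul (u : G) h

/-- the vertex of a flag -/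
def Nu.v (N : Nu hk ν) (a : F0 s) : N.V := Quot.mk _ a

/-- the dart of a flag -/
def dd (a : F0 s) : DD s := Quot.mk _ a

lemma dd_eq {a b : F0 s} : dd a = dd b ↔ a.1.Opp b.1 :=
  Quot.eq.trans (Equivalence.eqvGen_iff ⟨fun _ => opp_refl _, opp_symm, opp_trans⟩)

lemma Nu.v_nu (N : Nu hk ν) (a : F0 s) : N.v (ν a) = N.v a :=
  Eq.symm (Quot.sound (Or.inr rfl))

lemma Nu.v_opp (N : Nu hk ν) (a b : F0 s) (h : a.1.Opp b.1) : N.v a = N.v b := by
  rcases opp_cases hk h with e | e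
  · rw [e]
  · exact Quot.sound (Or.inl e)

lemma Nu.src (N : Nu hk ν) (a : F0 s) : (ν a).1.x.src = a.1.x.src :=
  (eqvGen_closed (O := fun b : F0 s => b.1.x.src = a.1.x.src) (by
    rintro b _ (rfl | rfl)
    · rw [show (op0 hk b).1.x = b.1.x from op_x hk _]
    · rw [show (th0 b).1.x.src = b.1.x.src from th_src _]) (N.ch a)).1 rfl

lemma Nu.v_src (N : Nu hk ν) {a b : F0 s} (h : N.v a = N.v b) : a.1.x.src = b.1.x.src :=
  (eqvGen_closed (O := fun c : F0 s => a.1.x.src = c.1.x.src) (by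
    rintro b _ (rfl | rfl)
    · rw [show (op0 hk b).1.x = b.1.x from op_x hk _]
    · rw [N.src]) (Quot.eq.1 h)).1 rfl

lemma Nu.sd_lk (N : Nu hk ν) (w : Walls s k sd) (ξ a b : F0 s) (h : b = op0 hk a ∨ b = ν a) :
    sd ξ.1 a.1 = sd ξ.1 b.1 := by
  have o : ∀ a : F0 s, sd ξ.1 a.1 ↔ sd ξ.1 (op0 hk a).1 := fun a =>
    w.opp _ _ _ (a.2.trans ξ.2.symm) (opp_op hk _)
  rcases h with rfl | rfl
  · exact propext (o a)
  refine propext (eqvGen_closed (O := fun c : F0 s => sd ξ.1 c.1) ?_ (N.ch a))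
  rintro b _ (rfl | rfl)
  · exact o b
  by_cases e : b.1.x.src = b.1.p
  · rw [th0_eq_iff.2 e]
  · obtain ⟨h1, h2, h3⟩ := th_spec e
    exact w.turn _ _ _ (b.2.trans ξ.2.symm) h1 h2 h3

/-- source of a dart -/
def Nu.sr (N : Nu hk ν) : DD s → N.V := Quot.lift N.v N.v_opp

/-- reversal of a dart -/
def rvD : DD s → DD s := Quot.map rev0 fun _ _ h => opp_rev h

/-- paths in the new graph -/
def Nu.P (N : Nu hk ν) : N.V → N.V → Prop :=
  ReflTransGen fun x y => ∃ δ, x = N.sr δ ∧ y = N.sr (rvD δ)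

lemma rvD_rvD : ∀ δ : DD s, rvD (rvD δ) = δ := Quot.ind fun a => congrArg dd (rev0_rev0 a)

lemma Nu.P_symm (N : Nu hk ν) {x y : N.V} (h : N.P x y) : N.P y x := by
  induction h with
  | refl => exact .refl
  | tail _ r ih => obtain ⟨δ, h1, h2⟩ := r; exact .head ⟨rvD δ, h2, by rw [rvD_rvD]; exact h1⟩ ih

lemma Nu.P_rev (N : Nu hk ν) (a : F0 s) : N.P (N.v a) (N.v (rev0 a)) := .single ⟨dd a, rfl, rfl⟩

lemma Nu.P_start (N : Nu hk ν) (b : F0 s) (hb : b.1.x.src = b.1.p) (n : ℕ) : ∀ a : F0 s,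
    a.1.p = b.1.p → a.1.q = b.1.q → Y.dist a.1.p a.1.x.src = n → N.P (N.v b) (N.v a) := by
  induction n using Nat.strong_induction_on with
  | _ n ih =>
    intro a h1 h2 h3
    by_cases e : a.1.x.src = a.1.p
    · rw [show a = b from Subtype.ext (ext_src h1 h2 (by rw [e, hb, h1]))]; exact .refl
    obtain ⟨k1, k2, k3⟩ := th_spec e
    have c := (T7C.th a.1).rev.cr.dist_src
    simp only [Flow.Flag.rev_p, Flow.Flag.rev_x, tgt_rv, k2, k3] at c
    have := (ih _ (h3 ▸ c ▸ Nat.lt_succ_self _) (rev0 (th0 a)) (k2.trans h1) (k1.trans h2)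
      (congrArg (Y.dist · _) k2)).trans (N.P_rev _)
    rwa [rev0_rev0, ← N.th a e, N.v_nu] at this

lemma Nu.P_rel (N : Nu hk ν) {a b : F0 s} (h : a.1.Rel b.1) : N.P (N.v a) (N.v b) := by
  have key : ∀ a b : F0 s, ((b.1.p = a.1.p ∧ b.1.q = a.1.q) ∨ b.1 = a.1.rev ∨ a.1.Opp b.1) →
      N.P (N.v a) (N.v b) := by
    rintro a b (⟨h1, h2⟩ | h | h)
    · obtain ⟨e, e1, e2⟩ := exists_step (lev_q a.1).symm (wd_ne a.1.wd)
      have := fun c => N.P_start ⟨⟨_, _, e, a.1.wd, e2⟩, a.2⟩ e1 (Y.dist c.1.p c.1.x.src) c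
      exact (N.P_symm (this a rfl rfl rfl)).trans (this b h1 h2 rfl)
    · rw [show b = rev0 a from Subtype.ext h]; exact N.P_rev a
    · rw [N.v_opp a b h]; exact .refl
  refine ((eqvGen_closed (O := fun η : s.Flag => ∃ l, N.P (N.v a) (N.v ⟨η, l⟩))
    (fun ξ ζ r => ?_) h).1 ⟨a.2, .refl⟩).elim fun _ t => t
  have l : Y.lev ζ.p = Y.lev ξ.p := by
    rcases r with r | rfl | r
    · rw [r.1]
    · exact lev_q ξ
    · rw [← lev_x, ← r.1, lev_x]
  exact ⟨fun ⟨l', t⟩ => ⟨l.trans l', t.trans (key ⟨ξ, l'⟩ ⟨ζ, _⟩ r)⟩,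
    fun ⟨l', t⟩ => ⟨l.symm.trans l', t.trans (N.P_symm (key ⟨ξ, _⟩ ⟨ζ, l'⟩ r))⟩⟩

/-- the data of the new tree -/
def Nu.data (N : Nu hk ν) (w : Walls s k sd) (hd : Function.Surjective d) (hs : s.NF)
    (hone : ∀ ξ ζ : s.Flag, Y.lev ξ.p = Y.lev ζ.p → ξ.Rel ζ) :
    FData (1 : Dg d.ker) N.V (DD s) where
  src := N.sr
  rv := rvD
  lev _ := 0
  sd := Quot.lift₂ (fun a b => sd a.1 b.1) (N.sd_lk w) fun _ _ _ h => propext (w.left _ _ _ h)
  src_smul _ := Quot.ind fun _ => rfl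
  rv_smul _ := Quot.ind fun _ => rfl
  lev_smul _ _ := rfl
  sd_smul _ := Quot.ind fun _ => Quot.ind fun _ => w.smul _ _ _
  rv_rv := rvD_rvD
  free u := Quot.ind fun a h => Subtype.ext <| eq_one_of_tr (e := a.1.x) <|
    h.elim (fun t => congrArg Prod.fst (dd_eq.1 t).1) fun t => (congrArg Prod.fst (dd_eq.1 t).1 :)
  fin := by
    classical
    obtain ⟨S, hS⟩ := fin0 hd hs
    exact ⟨S.image dd, Quot.ind fun a => (hS a).imp fun u h => Finset.mem_image_of_mem dd h⟩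
  lev_zero _ := ⟨1, rfl⟩
  lev_rv _ := rfl
  sd_src := Quot.ind fun a => w.self a.1
  sd_tgt := Quot.ind fun a => w.rev a.1
  sd_ne := Quot.ind fun a => Quot.ind fun b _ h1 h2 => w.ne a.1 b.1 (b.2.trans a.2.symm)
    (fun t => h1 (dd_eq.2 t).symm) fun t => h2 (dd_eq.2 (rev_rev b.1 ▸ opp_rev t)).symm
  conn := Quot.ind fun a => Quot.ind fun b _ => N.P_rel (hone _ _ (a.2.trans b.2.symm))

lemma Nu.not_opp (N : Nu hk ν) (a : F0 s) : ¬ (ν a).1.Opp a.1 := fun h => by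
  by_cases e : a.1.x.src = a.1.p
  · exact N.ne a (Subtype.ext (hk.ts _ _ h.1.symm e (by rw [← N.st a e, N.src, e])))
  · have c := (ν a).1.cr.2
    rw [h.1, N.th a e] at c
    exact not_mem_H_both ((th_spec e).2.1 ▸ c) a.1.cr.1

theorem stNAT (hM : T7.St_MKF) : St_NAT := by
  intro G _ d hd Y s hs k hk hone sd w
  obtain ⟨ν, N⟩ := exists_nu hd.surj hs hk
  obtain ⟨T, f, φ, f1, f2, f3, f4, f5, f6⟩ := hM _ _ _ _ (N.data w hd.surj hs hone)
  have sr : ∀ a, (φ (dd a)).src = f (N.v a) := fun a => f4 _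
  have rv : ∀ a, φ (dd (rev0 a)) = (φ (dd a)).rv := fun a => f5 (dd a)
  have l0 : ∀ a, T.lev a = 0 := fun a => by rw [← f.apply_symm_apply a, f3]; rfl
  have psi : ∀ (ζ ζ' : F0 s) (a a' : Y.Dir), a.src = a'.src → ζ.1.x.src = s.σ^[k] a.src →
      ζ'.1.x.src = s.σ^[k] a.src → s.Cmp k ζ.1.x (ζ.1.anc k).x a →
      s.Cmp k ζ'.1.x (ζ'.1.anc k).x a' → f (N.v ζ) = f (N.v ζ') := by
    intro ζ ζ' a a' h1 h2 h3 h4 h5
    refine eq_of_sd (by rw [l0, l0]) fun c => Bool.eq_iff_iff.2 ?_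
    obtain ⟨⟨ξ⟩, h⟩ := φ.surjective (c, false)
    have := ((f6 (Quot.mk _ ξ) (N.v ζ) rfl).trans (w.psi ξ.1 _ _ a a' (ζ.2.trans ξ.2.symm) h1 h2 h3 h4
      h5)).trans (f6 (Quot.mk _ ξ) (N.v ζ') rfl).symm
    simpa [h, mem_H, l0] using this
  let R : Ribbon T :=
    { Fl := F0 s
      dart := fun a => φ (dd a)
      rev := rev0
      opp := op0 hk
      next := ⟨fun a => ν (rev0 a), fun a => rev0 (ν a), fun a => by simp [N.inv, rev0_rev0],
        fun a => by simp [N.inv, rev0_rev0]⟩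
      dart_smul := fun u a => f2 u (dd a)
      rev_smul := fun _ _ => rfl
      opp_smul := fun u a => Subtype.ext (op_smul hk _ _)
      next_smul := fun u a => N.smul u (rev0 a)
      dart_rev := rv
      rev_rev := rev0_rev0
      dart_opp := fun a => congrArg φ (dd_eq.2 (opp_op hk _)).symm
      opp_opp := fun a => Subtype.ext (op_op hk _)
      opp_ne := fun a h => op_ne hk _ (congrArg Subtype.val h)
      opp_rev := fun a => Subtype.ext (op_rev hk _)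
      uniq := fun a b h => opp_cases hk (dd_eq.1 (φ.injective h))
      surj := fun e => by obtain ⟨⟨a⟩, h⟩ := φ.surjective e; exact ⟨a, h⟩
      src_next := fun a => by
        show (φ (dd (ν (rev0 a)))).src = _
        rw [sr, N.v_nu, ← sr, rv, src_rv]
      ne_next := fun a h => N.not_opp (rev0 a) (dd_eq.1 (φ.injective (h.trans (rv a).symm)))
      next_rev := fun a => by
        show ν (rev0 (rev0 (ν (rev0 a)))) = _
        rw [rev0_rev0, N.inv] }
  have ve : ∀ {a b : F0 s}, (φ (dd a)).src = (φ (dd b)).src → N.v a = N.v b := fun h =>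
    f.injective (by rwa [sr, sr] at h)
  refine ⟨⟨T, R, Subtype.val, l0, ?_, fun a b h => ?_, Subtype.val_injective, fun a => a.2,
    fun η h => ⟨⟨η, h⟩, rfl⟩, fun _ _ => rfl, fun _ => rfl, fun a => N.src (rev0 a),
    fun a h => ?_, fun a h => ?_, fun a b h => N.v_src (ve h), fun v hv ⟨g, g1, g2⟩ => ?_,
    fun a b h1 h2 h3 => ?_⟩⟩
  · obtain ⟨x, -, hx⟩ := exists_dir_lev hd.surj hs.ne.some 0
    obtain ⟨ξ, h, -⟩ := hk.cover 0 x x (desc_refl x)
    exact ⟨(φ (dd ⟨ξ, by rw [← lev_x, h, hx]⟩)).1.i⟩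
  · refine EqvGen.mono (fun x y r => Or.imp_right (fun e => e.trans ?_) r) _ _ (Quot.eq.1 (ve h))
    exact congrArg ν (rev0_rev0 x).symm
  · have := th_spec (ξ := a.1.rev) h
    rw [show (R.next a).1 = th a.1.rev from congrArg Subtype.val (N.th (rev0 a) h)]
    exact ⟨this.1, this.2.1⟩
  · exact (N.st (rev0 a) h).symm.trans ((N.src _).trans h)
  · obtain ⟨a₀, rfl, h2⟩ := s.exists_pre_of_fix k g1 g2
    obtain ⟨a, rfl⟩ := exists_dir_at hd.surj hs.ne a₀
    obtain ⟨x, x1, x2⟩ := exists_step (desc_lp hs.toTT k a).1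
      (T2.exp_ne hs.toTT (T2.lp_adj (adj_dir a)) (src_ne_tgt a) k)
    obtain ⟨ξ, rfl, c⟩ := hk.cover k x a x2
    refine ⟨⟨ξ, by rw [← lev_x, x1, hv]⟩, fun u hu => ?_⟩
    show u • (φ (dd _)).src = (φ (dd _)).src
    have e : (a.tr (u : G)).src = a.src := by rw [src_tr, h2 u hu]
    rw [sr, ← f1]
    refine psi (u • _) _ (a.tr (u : G)) a e ?_ (by rw [e]; exact x1) ?_ (cmp_symm c)
    · show (ξ.x.tr (u : G)).src = _
      rw [src_tr, x1, hu, e]
    · show s.Cmp k _ (((u : G) • ξ).anc k).x _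
      rw [anc_smul]
      exact cmp_smul _ (cmp_symm c)
  · have e1 := anc_start hs.toTT k h1
    have e2 := e1 ▸ h1.trans (anc_up k a.1).1.symm
    have := psi a b _ _ (e1.trans ((anc_p k h3).symm.trans (anc_start hs.toTT k h2).symm)) e2
      (h2.trans (h3.trans (h1.symm.trans e2))) .refl .refl
    exact (N.two a b h1 h2 (Quot.eq.1 (f.injective this))).imp_right fun e =>
      e.trans (congrArg ν (rev0_rev0 a).symm)

end Pool.Agent.Lib.FBC.T7C
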