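import Pool.Agent.Lib.FBC.T7.C.Blue
import Pool.Agent.Lib.FBC.RIB.Base

set_option linter.ambiguousOpen false

/-!
Peripheral elements of the ribbon tree are the periodic elements.
-/

namespace Pool.Agent.Lib.FBC.T7C

open Forest Flow RIB

namespace PERI

variable {G : Type} [Group G] {d : Dg G} {Y : Forest d} {s : Flow Y}

lemma tf (hd : FC d) : TF G := fun _ _ hn e => hd.torsionFree (Nat.pos_of_ne_zero hn) e

lemma comm_sq (h : TF G) {c γ : G} {m m' : ℤ} (h1 : γ * c * γ⁻¹ = c ^ m)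
    (h2 : γ⁻¹ * c * γ = c ^ m') : Commute (γ ^ 2) c := by
  by_cases e : c = 1
  · exact e ▸ Commute.one_right _
  have h3 : c ^ (m' * m - 1) = 1 := by
    have : γ⁻¹ * c ^ m * γ⁻¹⁻¹ = c := by rw [← h1]; group
    rw [← conj_zpow, inv_inv, h2, ← zpow_mul] at this
    rw [zpow_sub, this, zpow_one, mul_inv_cancel]
  have h4 : m' * m = 1 := by
    by_contra t
    exact e (h.zpow (sub_ne_zero.2 t) h3)
  have h5 : m * m = 1 := by
    rcases Int.eq_one_or_neg_one_of_mul_eq_one' h4 with ⟨-, t⟩ | ⟨-, t⟩ <;> rw [t] <;> rfl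
  have h6 : γ * (γ * c * γ⁻¹) * γ⁻¹ = c := by
    rw [h1, ← conj_zpow, h1, ← zpow_mul, h5, zpow_one]
  calc γ ^ 2 * c = γ * (γ * c * γ⁻¹) * γ⁻¹ * γ ^ 2 := by rw [sq]; group
    _ = c * γ ^ 2 := by rw [h6]

lemma deg_one {γ : G} {v : Y.V} (h : s.σ v = γ • v) : dg d γ = 1 := by
  have := congrArg Y.lev h
  rw [Flow.lev_σ, lev_smul'] at this
  omega

lemma rev_zpow {K : Type} [Group K] {T : Forest (1 : Dg K)} (R : Ribbon T) (j : ℤ) (ξ : R.Fl) :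
    R.rev ((R.next ^ j) ξ) = (R.next ^ (-j)) (R.rev ξ) := by
  have i : (rP R)⁻¹ = rP R := inv_eq_of_mul_eq_one_right (rP_sq R)
  have e : rP R * R.next * (rP R)⁻¹ = R.next⁻¹ := by
    rw [i]
    refine eq_inv_of_mul_eq_one_right (Equiv.ext fun ξ => ?_)
    exact (R.next_rev _).trans (R.rev_rev ξ)
  have : rP R * R.next ^ j = R.next ^ (-j) * rP R := by
    rw [zpow_neg, ← inv_zpow, ← e, conj_zpow, inv_mul_cancel_right]
  exact congrArg (fun f : Equiv.Perm R.Fl => f ξ) this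

variable (N : Nat s)

/-- flags at the start of their wedge -/
def St (ξ : N.R.Fl) : Prop := (N.fl ξ).x.src = (N.fl ξ).p

lemma start {p q : Y.V} (h : s.Wd p q) (l : Y.lev p = 0) :
    ∃ ξ, St N ξ ∧ (N.fl ξ).p = p ∧ (N.fl ξ).q = q := by
  obtain ⟨e, h1, h2⟩ := exists_step (let ⟨_, k⟩ := h; k.1.lev3) (T7B.wd_ne h)
  obtain ⟨ξ, t⟩ := N.surj ⟨p, q, e, h, h2⟩ l
  exact ⟨ξ, by rw [St, t]; exact h1, by rw [t], by rw [t]⟩

lemma St.smul {ξ : N.R.Fl} (h : St N ξ) (k : d.ker) : St N (k • ξ) := by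
  rw [St, N.smul, Flag.smul_x, Flag.smul_p, src_tr, h]

lemma sq_fix (hd : FC d) {k : d.ker} {ξ : N.R.Fl} (h : k • k • ξ = ξ) : k = 1 :=
  tf_of_free _ hd.free k 2 two_ne_zero (free N.R (ξ := ξ) (by rw [sq, mul_smul, h]))

include N in
lemma triv (hd : FC d) {p q : Y.V} (h : s.Wd p q) (l : Y.lev p = 0) {u : G} (hu : u • p = p) :
    u = 1 := by
  obtain ⟨ξ, h1, rfl, -⟩ := start N h l
  let k : d.ker := ⟨u, mem_ker_iff.2 (deg_eq_zero_of_fix hu)⟩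
  suffices k = 1 from congrArg Subtype.val this
  rcases N.pair ξ (k • ξ) h1 (h1.smul N k) (by rw [N.smul]; exact hu) with e | e
  · exact free N.R e
  · refine sq_fix N hd (ξ := ξ) ?_
    rw [e, ← nP_apply, ← nP_smul, e, ← nP_apply, nP_nP]

lemma ell_fwd (hV : T7.St_VCYC) (hd : FC d) (hs : s.NF) {x : d.ker} (h : x ∈ N.T.Ell) :
    ∃ g : G, dg d g ≠ 0 ∧ g * x = x * g := by
  by_cases e : (x : G) = 1
  · obtain ⟨g, hg⟩ := hd.surj (.ofAdd 1)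
    exact ⟨g, by simp [dg, hg], by simp [e]⟩
  obtain ⟨a, ha⟩ := h
  obtain ⟨ξ, rfl⟩ := src_surj N.R N.lev0 N.ne a
  have h1 := N.src (x • ξ) ξ ((src_smul N.R x ξ).trans ha)
  rw [N.smul, Flag.smul_x, src_tr] at h1
  obtain ⟨ζ, hζ⟩ := N.lift _ ((N.fl ξ).cr.lev_src.symm.trans (N.lev ξ)) ⟨x, e, h1⟩
  generalize (N.fl ξ).x.src = v at h1 hζ
  have := hV _ (fun k n hn => tf_of_free _ hd.free k n hn.ne') N.T N.R N.conn ζ
  obtain ⟨⟨c, hc⟩, gen⟩ := (Subgroup.isCyclic_of_le (H := MulAction.stabilizer d.ker v)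
    (H' := MulAction.stabilizer d.ker (N.R.dart ζ).src) hζ).exists_generator
  have hc' : (c : G) • v = v := hc
  have pw : ∀ a : G, a • v = v → ∃ n : ℤ, a = (c : G) ^ n := fun a t => by
    obtain ⟨n, hn⟩ := gen ⟨⟨a, mem_ker_iff.2 (deg_eq_zero_of_fix t)⟩, t⟩
    exact ⟨n, by simpa using (congrArg (fun z => (z.1 : G)) (congrArg Subtype.val hn)).symm⟩
  obtain ⟨v₀, h2, -⟩ := s.exists_pre_of_fix 1 e h1
  obtain ⟨γ, h3⟩ := hs.per v₀
  rw [show s.σ v₀ = v from h2] at h3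
  obtain ⟨m, hm⟩ := pw (γ * c * γ⁻¹) (s.fix_of_fix_iter 1 e h1 (by
    change _ • s.σ v = s.σ v
    rw [h3, mul_smul, inv_smul_smul, mul_smul, hc']))
  obtain ⟨m', hm'⟩ := pw (γ⁻¹ * c * γ) (by
    rw [mul_smul, mul_smul, ← h3, ← Flow.σ_smul, hc', h3, inv_smul_smul])
  obtain ⟨n, hn⟩ := pw x h1
  refine ⟨γ ^ 2, by simp [deg_one h3], ?_⟩
  rw [hn]
  exact (comm_sq (tf hd) hm hm').zpow_right n

/-- the multiplier of the wedge of a flag -/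
def Mu (γ : G) (ξ : N.R.Fl) : Prop :=
  s.σ (N.fl ξ).p = γ • (N.fl ξ).p ∧ s.σ (N.fl ξ).q = γ • (N.fl ξ).q

lemma ex_mu (ξ : N.R.Fl) : ∃ γ, Mu N γ ξ := let ⟨_, h⟩ := (N.fl ξ).wd; h.2.2.2.2

lemma Mu.rev {γ : G} {ξ : N.R.Fl} (h : Mu N γ ξ) : Mu N γ (N.R.rev ξ) := by
  rw [Mu, N.rev]
  exact h.symm

lemma Mu.next (hd : FC d) {γ : G} {ξ : N.R.Fl} (h : Mu N γ ξ) : Mu N γ (N.R.next ξ) := by
  by_cases e : (N.fl ξ).x.tgt = (N.fl ξ).q
  · obtain ⟨γ', t⟩ := ex_mu N (N.R.next ξ)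
    have : γ⁻¹ * γ' = 1 := triv N hd (N.fl _).wd (N.lev (N.R.next ξ)) (by
      rw [mul_smul, ← t.1, N.nx_end ξ e, h.2, inv_smul_smul])
    rwa [inv_mul_eq_one.1 this]
  · rw [Mu, (N.nx_in ξ e).1, (N.nx_in ξ e).2]
    exact h

lemma Mu.zpow (hd : FC d) {γ : G} {ξ : N.R.Fl} (h : Mu N γ ξ) (n : ℤ) :
    Mu N γ ((N.R.next ^ n) ξ) := by
  have k : ∀ (n : ℕ) ξ, Mu N γ ξ → Mu N γ ((N.R.next ^ (n : ℤ)) ξ) := fun n ξ h => by
    induction n with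
    | zero => exact h
    | succ n ih =>
      rw [Nat.cast_succ, add_comm, zpow_one_add]
      exact ih.next N hd
  obtain ⟨n, rfl | rfl⟩ := n.eq_nat_or_neg
  · exact k n ξ h
  · rw [← N.R.rev_rev ξ, ← rev_zpow]
    exact (k n _ (h.rev N)).rev N

lemma tr_fwd (hd : FC d) {x : d.ker} {ξ : N.R.Fl} {n : ℤ} (h : x • ξ = (N.R.next ^ n) ξ) :
    ∃ g : G, dg d g ≠ 0 ∧ g * x = x * g := by
  obtain ⟨γ, t⟩ := ex_mu N ξ
  have h1 := (t.zpow N hd n).1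
  rw [← h, N.smul, Flag.smul_p, Flow.σ_smul, t.1] at h1
  refine ⟨γ, by simp [deg_one t.1], inv_mul_eq_one.1 (triv N hd (N.fl ξ).wd (N.lev ξ) ?_)⟩
  rw [mul_smul, mul_smul, h1, ← mul_smul γ, inv_smul_smul]

lemma ell_back {x : d.ker} (h : (x : G) ∈ Y.Ell) : N.R.Peri x := by
  by_cases e : (x : G) = 1
  · obtain ⟨ξ⟩ := nonempty_fl N.R N.ne
    exact Or.inr ⟨ξ, 0, by rw [show x = 1 from Subtype.ext e, one_smul]; rfl⟩
  obtain ⟨a, ha⟩ := h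
  have : ∃ v, Y.lev v = 0 ∧ (x : G) • v = v := by
    obtain ⟨n, t | t⟩ := (Y.lev a).eq_nat_or_neg
    · obtain ⟨k, hk⟩ := s.exists_back n
      exact ⟨k.f a, by rw [hk, t, sub_self], by rw [← k.smul, ha]⟩
    · exact ⟨s.σ^[n] a, by rw [Flow.lev_iter, t, neg_add_cancel], by rw [← Flow.iter_smul, ha]⟩
  obtain ⟨v, l, hv⟩ := this
  obtain ⟨ξ, hξ⟩ := N.lift v l ⟨x, e, hv⟩
  exact Or.inl ⟨_, hξ x hv⟩

/-- walking to the end of the wedge -/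
lemma walk (ξ : N.R.Fl) : ∃ j : ℤ, (N.fl ((N.R.next ^ j) ξ)).x.tgt = (N.fl ξ).q ∧
    (N.fl ((N.R.next ^ j) ξ)).q = (N.fl ξ).q := by
  induction hn : Y.dist (N.fl ξ).x.tgt (N.fl ξ).q generalizing ξ with
  | zero => exact ⟨0, eq_of_dist (N.fl ξ).cr.btw_tgt.lev2 hn, rfl⟩
  | succ n ih =>
    have e := (N.nx_in ξ fun e => by simp [e] at hn).2
    have h1 := (N.fl (N.R.next ξ)).cr.dist_tgt
    obtain ⟨j, hj⟩ := ih (N.R.next ξ) (by rw [N.nx_src, e, hn, ← e] at h1; omega)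
    exact ⟨j + 1, by rw [zpow_add_one, ← e]; exact hj⟩

lemma line {ξ : N.R.Fl} (h : St N ξ) {p : Y.V} (c : s.Cls (N.fl ξ).p p) :
    ∃ n : ℤ, St N ((N.R.next ^ n) ξ) ∧ (N.fl ((N.R.next ^ n) ξ)).p = p := by
  induction c with
  | refl => exact ⟨0, h, rfl⟩
  | tail _ w ih =>
    obtain ⟨n, h1, rfl⟩ := ih
    obtain ⟨ζ, h2, h3, rfl⟩ := start N w (N.lev _)
    obtain ⟨j, h4, h5⟩ := walk N ζ
    rcases N.pair _ ζ h1 h2 h3 with e | e
    · have t := N.nx_end _ (h4.trans h5.symm)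
      refine ⟨1 + (j + n), ?_⟩
      rw [zpow_one_add, zpow_add, Equiv.Perm.mul_apply, Equiv.Perm.mul_apply, ← e]
      exact ⟨by rw [St, N.nx_src, t, h4, h5], t.trans h5⟩
    · have t : (N.R.next ^ (-j + -1 + n)) ξ = N.R.rev ((N.R.next ^ j) ζ) := by
        rw [rev_zpow, e, ← zpow_one N.R.next, rev_zpow, N.R.rev_rev, zpow_one, zpow_add, zpow_add]
        rfl
      refine ⟨-j + -1 + n, ?_⟩
      rw [t, St, N.rev]
      exact ⟨h4.trans h5.symm, h5⟩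

lemma hyp_back (hd : FC d) {x : d.ker} (h : (x : G) ∉ Y.Ell) {p q : Y.V} (l : Y.lev p = 0)
    (w : s.Wd p q) (c : s.Cls p ((x : G) • p)) : N.R.Peri x := by
  obtain ⟨ξ, h1, rfl, -⟩ := start N w l
  obtain ⟨n, h2, h3⟩ := line N h1 c
  rcases N.pair _ (x • ξ) h2 (h1.smul N x) (by rw [N.smul, h3]; rfl) with e | e
  · exact Or.inr ⟨ξ, n, e⟩
  · have e' : x • ξ = (N.R.next ^ (1 + -n)) (N.R.rev ξ) := by
      rw [e, rev_zpow, zpow_one_add]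
      rfl
    have : x = 1 := sq_fix N hd (ξ := ξ) (by
      rw [e', ← next_zpow_smul, ← N.R.rev_smul, e', rev_zpow, N.R.rev_rev, ← Equiv.Perm.mul_apply,
        ← zpow_add, add_neg_cancel]
      rfl)
    exact (h ⟨(N.fl ξ).p, by rw [this]; exact one_smul _ _⟩).elim

end PERI

open PERI in
theorem stPERI (hV : T7.St_VCYC) (hA : T7.St_AXN) : St_PERI := by
  intro G _ d hd Y s hs N x
  refine ⟨fun h => h.elim (ell_fwd N hV hd hs) fun ⟨_, _, h⟩ => tr_fwd N hd h, fun ⟨g, h1, h2⟩ => ?_⟩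
  by_cases e : (x : G) ∈ Y.Ell
  · exact ell_back N e
  · obtain ⟨p, q, l, w, c⟩ := hA G d hd Y s hs x x.2 e g h1 h2
    exact hyp_back N hd e l w c

end Pool.Agent.Lib.FBC.T7C
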