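import Pool.Agent.Lib.FBC.T7.C.Blue

/-!
The walls on flags.
-/

namespace Pool.Agent.Lib.FBC.T7C

open Forest T2 T7B

variable {G : Type} [Group G] {d : Dg G} {Y : Forest d} {s : Flow Y} {k : ℕ}
  {E : Y.E → Prop} {o p q y u v w : Y.V} {a a' b x z : Y.Dir} {c : Y.E}

open Classical in
/-- indicator -/
noncomputable def ind (P : Prop) : ZMod 2 := if P then 1 else 0

lemma ind_pos {P : Prop} (h : P) : ind P = 1 := if_pos h
lemma ind_neg {P : Prop} (h : ¬ P) : ind P = 0 := if_neg h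
lemma ind_congr {P Q : Prop} (h : P ↔ Q) : ind P = ind Q := by rw [h]

lemma ind_xor {P Q R : Prop} (h : P ↔ ¬ (Q ↔ R)) : ind P = ind Q + ind R := by
  by_cases h1 : Q <;> by_cases h2 : R <;> simp [ind, h, h1, h2]
  rfl

/-- parity of the number of marked edges of a geodesic -/
noncomputable def par (E : Y.E → Prop) (u v : Y.V) : ZMod 2 := ∑ c ∈ sep u v, ind (E c)

lemma par_eq (S : Finset Y.E) (h : sep u v ⊆ S) :
    par E u v = ∑ c ∈ S, ind (c ∈ sep u v ∧ E c) := by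
  rw [par, ← Finset.sum_subset h fun c _ t => ind_neg fun r => t r.1]
  exact Finset.sum_congr rfl fun c t => ind_congr (by simp [t])

lemma par_tri (h : Y.lev u = Y.lev v) (h' : Y.lev v = Y.lev w) :
    par E u w = par E u v + par E v w := by
  rw [par_eq _ (sep_subset_union h h'), par_eq _ Finset.subset_union_left,
    par_eq _ Finset.subset_union_right, ← Finset.sum_add_distrib]
  exact Finset.sum_congr rfl fun c _ => ind_xor (by rw [mem_sep_tri h h']; tauto)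

lemma par_smul (g : G) {E' : Y.E → Prop} (h : ∀ c, E' (g • c) ↔ E c) :
    par E' (g • u) (g • v) = par E u v := by
  rw [par, sep_smul, Finset.sum_image (MulAction.injective g).injOn]
  exact Finset.sum_congr rfl fun c _ => ind_congr (h c)

variable (s k) in
/-- the edges of a component -/
def EE (x b : Y.Dir) (c : Y.E) : Prop := ∃ a, s.Cmp k x b a ∧ a.1 = c

variable (s k) in
/-- the side of the point `u` of the image of `a` -/
noncomputable def val (x b : Y.Dir) (o : Y.V) (a : Y.Dir) (u : Y.V) : ZMod 2 :=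
  par (EE s k x b) o a.src + ind (EE s k x b a.1 ∧ x.1 ∈ sep (s.σ^[k] a.src) u)

lemma ee_dir (hb : s.Desc k b x) (h : EE s k x b c) (hc : c ∈ sep p y) :
    ∃ e x', e.1 = c ∧ x'.1 = x.1 ∧ Y.Cross p y e ∧ s.Desc k e x' := by
  obtain ⟨a, h1, rfl⟩ := h
  rcases cross_or_of_mem hc with t | t
  · exact ⟨a, x, rfl, rfl, t, cmp_desc h1 hb⟩
  · exact ⟨a.rv, x.rv, rfl, rfl, t, (cmp_desc h1 hb).lh_rv⟩

lemma ee_iff (hb : s.Desc k b x) (l : s.LegalP p y) (h : EE s k x b c) (hc : c ∈ sep p y)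
    (hv : Y.btw p v y) : c ∈ sep v y ↔ x.1 ∈ sep (s.σ^[k] v) (s.σ^[k] y) := by
  obtain ⟨e, x', rfl, e2, h1, h2⟩ := ee_dir hb h hc
  rw [← e2]
  rcases h1.split hv.lev1 with t | t
  · exact iff_of_false (Finset.disjoint_left.1 hv.disjoint t.mem)
      (Finset.disjoint_left.1 (lp_lg l hv k).disjoint ((lp_left l hv).lh_cross t h2).mem)
  · exact iff_of_true t.mem ((lp_right l hv).lh_cross t h2).mem

lemma ee_uniq (hb : s.Desc k b x) (l : s.LegalP p y) {c' : Y.E} (h : EE s k x b c)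
    (hc : c ∈ sep p y) (h' : EE s k x b c') (hc' : c' ∈ sep p y) : c' = c := by
  obtain ⟨e, x1, rfl, e1, h1, h2⟩ := ee_dir hb h hc
  obtain ⟨e', x2, rfl, e2, h3, h4⟩ := ee_dir hb h' hc'
  obtain rfl := (l.lh_cross h1 h2).unique (l.lh_cross h3 h4) (e1.trans e2.symm)
  rw [ua l h1 h3 h2 h4]

lemma btw_mem (h : a.1 ∈ sep p y) : Y.btw p a.src y ∧ Y.btw p a.tgt y :=
  (cross_or_of_mem h).elim (fun t => ⟨t.btw_src, t.btw_tgt⟩) fun t =>
    ⟨by simpa using t.btw_tgt, t.btw_src⟩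

lemma sep_dir (a : Y.Dir) : c ∈ sep a.src a.tgt ↔ c = a.1 := by
  rw [Dir.src, Dir.tgt, sep_ed, Finset.mem_singleton]

lemma val_arm (hb : s.Desc k b x) (l : s.LegalP p y) (lo : Y.lev o = Y.lev p) (ha : a.1 ∈ sep p y)
    (hu : Y.btw (s.σ^[k] a.src) u (s.σ^[k] a.tgt)) : val s k x b o a u = par (EE s k x b) o y +
      ind ((∃ c ∈ sep p y, EE s k x b c) ∧ x.1 ∈ sep u (s.σ^[k] y)) := by
  obtain ⟨b1, b2⟩ := btw_mem ha
  rw [val, par_tri (lo.trans b1.lev1) b1.lev2, add_assoc, add_right_inj]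
  by_cases h : ∃ c ∈ sep p y, EE s k x b c
  · obtain ⟨c, c1, c2⟩ := h
    have k1 := ee_iff hb l c2 c1 b1
    have k2 := ee_iff hb l c2 c1 b2
    have k3 : par (EE s k x b) a.src y = ind (c ∈ sep a.src y) := by
      rw [par_eq _ b1.subset', Finset.sum_eq_single_of_mem c c1 fun c' t r =>
        ind_neg fun f => r (ee_uniq hb l c2 c1 f.2 t)]
      exact ind_congr (and_iff_left c2)
    have k4 : x.1 ∈ sep (s.σ^[k] a.src) u → EE s k x b a.1 := fun t => by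
      have := hu.subset t
      rw [mem_sep_tri (lev_it k b1.lev2) (lev_it k b2.lev2).symm, sep_comm (s.σ^[k] y), ← k1, ← k2,
        sep_comm a.tgt, ← mem_sep_tri b1.lev2 b2.lev2.symm, sep_dir] at this
      exact this ▸ c2
    rw [k3, k1]
    refine (ind_xor ?_).trans (congrArg _ (ind_congr (and_iff_right ⟨c, c1, c2⟩).symm))
    rw [mem_sep_tri hu.lev1 (hu.lev1.symm.trans (lev_it k b1.lev2))]
    tauto
  · rw [ind_neg fun t => h ⟨_, ha, t.1⟩, ind_neg fun t => h t.1, add_zero]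
    exact (Finset.sum_eq_zero fun c t => ind_neg fun r => h ⟨c, b1.subset' t, r⟩).symm

lemma on_arm (l : s.LegalP p y) (ha : a.1 ∈ sep p y)
    (hu : Y.btw (s.σ^[k] a.src) u (s.σ^[k] a.tgt)) : Y.btw (s.σ^[k] p) u (s.σ^[k] y) :=
  (lp_lg l (btw_mem ha).1 k).convex (lp_lg l (btw_mem ha).2 k) hu

lemma ee_tip (hb : s.Desc k b x) (h : s.INP p y q) (h1 : Y.btw (s.σ^[k] p) u (s.σ^[k] y))
    (h2 : Y.btw (s.σ^[k] q) u (s.σ^[k] y)) (hx : x.1 ∈ sep u (s.σ^[k] y)) :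
    (∃ c ∈ sep p y, EE s k x b c) → ∃ c ∈ sep q y, EE s k x b c := by
  rintro ⟨_, c1, a, c2, rfl⟩
  have c3 := cmp_desc c2 hb
  have key : ∀ x', x'.1 = x.1 → Y.Cross (s.σ^[k] p) (s.σ^[k] y) x' →
      ∃ e, Y.Cross q y e ∧ s.Desc k e x' := fun x' e t => by
    refine (lp_symm h.2.2.1).lh_anc (Cross.extend_left ?_ h2)
    exact (cross_or_of_mem (e ▸ hx)).resolve_right fun r => t.not_rv (r.extend_left h1)
  rcases cross_or_of_mem c1 with t | t
  · obtain ⟨e, e1, e2⟩ := key x rfl (h.2.1.lh_cross t c3)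
    exact ⟨_, e1.mem, e, c2.tail ⟨c3, e2, p, q, ⟨y, h⟩, t.extend_right h.1,
      e1.extend_right h.1.symm⟩, rfl⟩
  · obtain ⟨e, e1, e2⟩ := key x.rv rfl (h.2.1.lh_cross t c3.lh_rv)
    exact ⟨_, e1.mem, e.rv, c2.tail ⟨c3, by simpa using e2.lh_rv, q, p, ⟨y, inp_symm h⟩,
      by simpa using (t.extend_right h.1).symm, (e1.extend_right h.1.symm).symm⟩, rfl⟩

lemma val_wd (hb : s.Desc k b x) (h : s.Wd p q) (lo : Y.lev o = Y.lev p) (ha : a.1 ∈ sep p q)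
    (ha' : a'.1 ∈ sep p q) (hu : Y.btw (s.σ^[k] a.src) u (s.σ^[k] a.tgt))
    (hu' : Y.btw (s.σ^[k] a'.src) u (s.σ^[k] a'.tgt)) :
    val s k x b o a u = val s k x b o a' u := by
  obtain ⟨y, h⟩ := h
  have l := lp_symm h.2.2.1
  have lq := lo.trans h.1.lev3
  have key : ∀ {a a' : Y.Dir}, a.1 ∈ sep p y → a'.1 ∈ sep q y →
      Y.btw (s.σ^[k] a.src) u (s.σ^[k] a.tgt) → Y.btw (s.σ^[k] a'.src) u (s.σ^[k] a'.tgt) →
      val s k x b o a u = val s k x b o a' u := fun t r hu hu' => by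
    have k1 := on_arm h.2.1 t hu
    have k2 := on_arm l r hu'
    rw [val_arm hb h.2.1 lo t hu, val_arm hb l lq r hu']
    exact congrArg _ (ind_congr (and_congr_left fun f =>
      ⟨ee_tip hb h k1 k2 f, ee_tip hb (inp_symm h) k2 k1 f⟩))
  rw [h.1.sep_eq, Finset.mem_union, sep_comm y] at ha ha'
  rcases ha with t | t <;> rcases ha' with r | r
  · rw [val_arm hb h.2.1 lo t hu, val_arm hb h.2.1 lo r hu']
  · exact key t r hu hu'
  · exact (key r t hu' hu).symm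
  · rw [val_arm hb l lq t hu, val_arm hb l lq r hu']

lemma val_cmp (hb : s.Desc k b x) (h : s.Cmp k z a a') (lo : Y.lev o + k = Y.lev z.src) :
    val s k x b o a z.src = val s k x b o a' z.src := by
  induction h with
  | refl => rfl
  | tail _ t ih =>
    obtain ⟨h1, h2, p, q, h3, h4, h5⟩ := t
    have := h1.lh_lev
    have := h4.lev_src
    exact ih.trans (val_wd hb h3 (by omega) h4.mem (sep_comm q p ▸ h5.mem) h1.btw_src h2.btw_src)

variable (k) in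
/-- the side of a flag -/
noncomputable def vl (ξ ζ : s.Flag) : ZMod 2 :=
  val s k ξ.x (ξ.anc k).x (ξ.anc k).x.src (ζ.anc k).x ζ.x.src

lemma lev_anc {ξ ζ : s.Flag} (h : Y.lev ζ.p = Y.lev ξ.p) :
    Y.lev (ξ.anc k).x.src + k = Y.lev ζ.x.src ∧ Y.lev (ξ.anc k).x.src = Y.lev (ζ.anc k).p := by
  have := (anc_desc k ξ).lh_lev
  have := (anc_desc k ζ).lh_lev
  have := ξ.cr.lev_src
  have := ζ.cr.lev_src
  have := (ζ.anc k).cr.lev_src
  omega

lemma val_self (h : s.Desc k a x) : val s k x b o a x.src = par (EE s k x b) o a.src := by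
  rw [val, ind_neg fun t => Finset.disjoint_left.1 h.btw1.disjoint t.2 ((sep_dir x).2 rfl),
    add_zero]

lemma vl_self (ξ : s.Flag) : vl k ξ ξ = 0 := by rw [vl, val_self (anc_desc k ξ)]; simp [par]

lemma vl_rev {ξ ζ : s.Flag} (h : Y.lev ζ.p = Y.lev ξ.p) :
    vl k ξ ζ.rev = vl k ξ ζ + ind (EE s k ξ.x (ξ.anc k).x (ζ.anc k).x.1 ∧ ξ.x.1 = ζ.x.1) := by
  have t := anc_desc k ζ
  rw [vl, anc_rev, val_wd (a := (ζ.anc k).rev.x) (a' := (ζ.anc k).x) (u := ζ.rev.x.src)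
    (anc_desc k ξ) (ζ.anc k).wd (lev_anc h).2 (ζ.anc k).cr.mem (ζ.anc k).cr.mem t.lh_rv.btw_src t.btw_tgt, vl, val, val, add_assoc,
    add_right_inj]
  refine ind_xor ?_
  rw [show ζ.rev.x.src = ζ.x.tgt from rfl, mem_sep_tri t.lev_src (lev_src_tgt _), sep_dir]
  tauto

theorem stWALLS : St_WALLS := by
  intro G _ d hd Y s hs k hk
  have lo : ∀ {ξ ζ : s.Flag}, ξ.Opp ζ → Y.lev ζ.p = Y.lev ξ.p := fun {ξ ζ} h => by
    rw [ζ.cr.lev_src, ξ.cr.lev_src, h.1]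
  have op : ∀ ξ ζ ζ' : s.Flag, Y.lev ζ.p = Y.lev ξ.p → ζ.Opp ζ' → vl k ξ ζ = vl k ξ ζ' :=
    fun ξ ζ ζ' l h => by rw [vl, vl, ← h.1]; exact val_cmp (anc_desc k ξ) (h.2 k) (lev_anc l).1
  refine ⟨fun ξ ζ => Y.lev ζ.p = Y.lev ξ.p ∧ vl k ξ ζ ≠ 0, fun g ξ ζ => ?_, fun ξ ξ' ζ h => ?_,
    fun ξ ζ ζ' l h => by rw [op ξ ζ ζ' l h, lo h], fun ξ ζ ζ' l h1 h2 h3 => ?_,
    fun ξ h => h.2 (vl_self ξ), fun ξ => ⟨ξ.cr.lev.symm, ?_⟩, fun ξ ζ l h1 h2 => ?_,
    fun ξ ζ ζ' a a' l h1 h2 h3 h4 h5 => ?_⟩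
  · have e : ∀ c, EE s k (ξ.x.tr g) ((ξ.anc k).x.tr g) (g • c) ↔ EE s k ξ.x (ξ.anc k).x c :=
      fun c => ⟨fun ⟨a, t, r⟩ => ⟨a.tr g⁻¹, by simpa using cmp_smul g⁻¹ t,
        inv_smul_eq_iff.2 r⟩, fun ⟨a, t, r⟩ => ⟨a.tr g, cmp_smul g t, congrArg (g • ·) r⟩⟩
    refine and_congr (by simp [lev_smul']) (not_congr (Eq.congr_left ?_))
    simp only [vl, val, anc_smul, Flow.Flag.smul_x, src_tr, par_smul g e, it_smul]
    exact congrArg _ (ind_congr (and_congr (e _) (smul_mem_sep g)))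
  · rw [lo h]
    refine and_congr_right fun l => not_congr (Eq.congr_left ?_)
    have e : EE s k ξ.x (ξ'.anc k).x = EE s k ξ.x (ξ.anc k).x := funext fun c => propext
      ⟨fun ⟨a, t, r⟩ => ⟨a, (h.2 k).trans t, r⟩, fun ⟨a, t, r⟩ => ⟨a, (cmp_symm (h.2 k)).trans t, r⟩⟩
    have e0 := (op ξ ξ ξ' rfl h).symm.trans (vl_self ξ)
    rw [vl, ← h.1, val_self (h.1 ▸ anc_desc k ξ')] at e0
    rw [vl, vl, ← h.1, val, val, e, par_tri ((lev_anc (lo h)).2.trans (ξ'.anc k).cr.lev_src)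
      ((lev_anc (l.trans (lo h).symm)).2.trans (ζ.anc k).cr.lev_src), e0, zero_add]
  · rw [h1, ← ζ.cr.lev, vl, vl, h3]
    refine and_congr_right fun _ => not_congr (Eq.congr_left (val_wd (anc_desc k ξ) (ζ.anc k).wd
      (lev_anc l).2 (ζ.anc k).cr.mem ?_ (anc_desc k ζ).btw_src (h3 ▸ (anc_desc k ζ').btw_src)))
    rw [← anc_pq k h1, anc_pq k h2.symm, sep_comm]
    exact (ζ'.anc k).cr.mem
  · rw [vl_rev rfl, vl_self, ind_pos ⟨⟨_, .refl, rfl⟩, rfl⟩]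
    decide
  · rw [vl_rev l, ind_neg, add_zero, Flow.Flag.rev_p, ← ζ.cr.lev]
    rintro ⟨⟨a, t, r⟩, e⟩
    have t' := cmp_desc t (anc_desc k ξ)
    rcases eq_or_rv r with r | r
    · exact h1 (hk k le_rfl _ _ (t'.unique (r ▸ anc_desc k ζ) e) (r ▸ t))
    · have r' : (ζ.rev.anc k).x = a := by rw [anc_rev, Flow.Flag.rev_x, r, rv_rv]
      exact h2 (hk k le_rfl _ _ (t'.unique (r' ▸ anc_desc k ζ.rev) e) (r' ▸ t))
  · have l' : Y.lev ζ'.p = Y.lev ξ.p := by rw [ζ'.cr.lev_src, h3, ← h2, ← ζ.cr.lev_src, l]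
    rw [vl, vl, val_cmp (anc_desc k ξ) h4 (lev_anc l).1, val_cmp (anc_desc k ξ) h5 (lev_anc l').1,
      h2, h3, l, l']
    simp [val, h1]

end Pool.Agent.Lib.FBC.T7C
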