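import Mathlib

set_option autoImplicit false

/-!
Closing the arcs of a pair of involutions.
-/

namespace Pool.Agent.Lib.FBC.T7C

open Relation MulAction

variable {K F : Type} [Group K] [MulAction K F]

lemma eqvGen_closed {R : F → F → Prop} {O : F → Prop} (h : ∀ a b, R a b → (O a ↔ O b)) {x y : F}
    (e : EqvGen R x y) : O x ↔ O y := by
  induction e with
  | rel a b r => exact h a b r
  | refl => rfl
  | symm _ _ _ ih => exact ih.symm
  | trans _ _ _ _ _ i1 i2 => exact i1.trans i2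

theorem arc (opp μ : F → F) (hfin : ∃ S : Finset F, ∀ x, ∃ k : K, k • x ∈ S)
    (oo : ∀ x, opp (opp x) = x) (on : ∀ x, opp x ≠ x) (mm : ∀ x, μ (μ x) = x)
    (os : ∀ (k : K) x, opp (k • x) = k • opp x) (ms : ∀ (k : K) x, μ (k • x) = k • μ x) :
    ∃ ν : F → F, (∀ x, ν (ν x) = x) ∧ (∀ (k : K) x, ν (k • x) = k • ν x) ∧
      (∀ x, μ x ≠ x → ν x = μ x) ∧
      (∀ x, μ x = x → μ (ν x) = ν x ∧ ν x ≠ x ∧
        EqvGen (fun a b => b = opp a ∨ b = μ a) x (ν x)) ∧
      ∀ x z, μ x = x → μ z = z → EqvGen (fun a b => b = opp a ∨ b = ν a) x z →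
        z = x ∨ z = ν x := by
  classical
  let o : Equiv.Perm F := Function.Involutive.toPerm opp oo
  let m : Equiv.Perm F := Function.Involutive.toPerm μ mm
  let w : Equiv.Perm F := m * o
  have o2 : o * o = 1 := Equiv.ext oo
  have m2 : m * m = 1 := Equiv.ext mm
  have oi : o⁻¹ = o := inv_eq_of_mul_eq_one_right o2
  have mi : m⁻¹ = m := inv_eq_of_mul_eq_one_right m2
  have cj : o * w * o⁻¹ = w⁻¹ := by
    simp only [w, mul_inv_rev, oi, mi]; rw [mul_assoc, mul_assoc, o2, mul_one]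
  have dih : ∀ i : ℤ, o * w ^ i = w ^ (-i) * o := fun i => by
    have := congrArg (· ^ i) cj
    simp only [conj_zpow] at this
    rw [zpow_neg, ← inv_zpow, ← this]; group
  have ws : ∀ (i : ℤ) (k : K) x, (w ^ i) (k • x) = k • (w ^ i) x := fun i k x => by
    have : Commute w (MulAction.toPerm k) := Equiv.ext fun y => by
      show μ (opp (k • y)) = k • μ (opp y)
      rw [os, ms]
    exact congrArg (fun f : Equiv.Perm F => f x) (this.zpow_left i).eq
  have wa : ∀ (i j : ℤ) x, (w ^ i) ((w ^ j) x) = (w ^ (i + j)) x := fun i j x => by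
    rw [zpow_add]; rfl
  have ho : ∀ x, μ x = x → ∀ i : ℤ, opp ((w ^ i) x) = (w ^ (-i - 1)) x := fun x hx i => by
    have h1 : opp x = (w ^ (-1 : ℤ)) x := by
      rw [zpow_neg_one]; simp only [w, mul_inv_rev, oi, mi]
      show opp x = opp (μ x); rw [hx]
    have h2 : (o * w ^ i) x = (w ^ (-i) * o) x := by rw [dih]
    have h3 : opp ((w ^ i) x) = (w ^ (-i)) (opp x) := h2
    rw [h3, h1, wa]; rfl
  have hm : ∀ x, μ x = x → ∀ i : ℤ, μ ((w ^ i) x) = (w ^ (-i)) x := fun x hx i => by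
    have h1 : μ ((w ^ i) x) = (w ^ (1 : ℤ)) (opp ((w ^ i) x)) := by
      rw [zpow_one]; show _ = μ (opp (opp _)); rw [oo]
    rw [h1, ho x hx, wa]; congr 2; ring
  have per : ∀ x (i : ℤ), (w ^ i) x = x ↔ (period w x : ℤ) ∣ i := fun x i =>
    zpow_smul_eq_iff_period_dvd (g := w) (a := x)
  have eqv : ∀ x (i j : ℤ), (w ^ i) x = (w ^ j) x ↔ (period w x : ℤ) ∣ i - j := fun x i j => by
    rw [← per]
    constructor
    · intro h
      rw [sub_eq_neg_add, ← wa, h, wa]; simp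
    · intro h
      conv_rhs => rw [← h, wa]
      congr 2; ring
  have pw : ∀ x (i : ℤ), period w ((w ^ i) x) = period w x := fun x i => by
    have : ∀ j : ℤ, (period w ((w ^ i) x) : ℤ) ∣ j ↔ (period w x : ℤ) ∣ j := fun j => by
      rw [← per, wa, eqv]; simp
    exact Nat.dvd_antisymm (Int.natCast_dvd_natCast.1 ((this _).2 dvd_rfl))
      (Int.natCast_dvd_natCast.1 ((this _).1 dvd_rfl))
  have pk : ∀ (k : K) x, period w (k • x) = period w x := fun k x => by
    have : ∀ j : ℤ, (period w (k • x) : ℤ) ∣ j ↔ (period w x : ℤ) ∣ j := fun j => by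
      rw [← per, ← per, ws, smul_left_cancel_iff]
    exact Nat.dvd_antisymm (Int.natCast_dvd_natCast.1 ((this _).2 dvd_rfl))
      (Int.natCast_dvd_natCast.1 ((this _).1 dvd_rfl))
  have st : ∀ x, μ x = x → ∀ i : ℤ, μ ((w ^ i) x) = (w ^ i) x ↔ (period w x : ℤ) ∣ 2 * i :=
    fun x hx i => by rw [hm x hx, eq_comm, eqv]; congr! 1; ring
  have pos : ∀ x, μ x = x → ∃ r : ℕ, 0 < r ∧ period w x = 2 * r := fun x hx => by
    obtain ⟨S, hS⟩ := hfin
    choose k hk using hS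
    obtain ⟨i, j, hij, e⟩ := Finite.exists_ne_map_eq_of_infinite
      (fun i : ℤ => (⟨_, hk ((w ^ i) x)⟩ : S))
    have e' : k ((w ^ i) x) • (w ^ i) x = k ((w ^ j) x) • (w ^ j) x := congrArg Subtype.val e
    have e2 : (w ^ (i - j)) x = ((k ((w ^ i) x))⁻¹ * k ((w ^ j) x)) • x := by
      have := congrArg (fun y => (w ^ (-j)) ((k ((w ^ i) x))⁻¹ • y)) e'
      simp only [← mul_smul, inv_mul_cancel, one_smul, ws, wa, neg_add_cancel, zpow_zero,
        Equiv.Perm.one_apply] at this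
      rw [← this]; congr 2; ring
    have e3 := (st x hx (i - j)).1 (by rw [e2, ms, hx])
    have p0 : period w x ≠ 0 := fun h => by
      rw [h] at e3; simp at e3; omega
    rcases Nat.even_or_odd' (period w x) with ⟨r, h | h⟩
    · exact ⟨r, by omega, h⟩
    · refine (on ((w ^ (r : ℤ)) x) ?_).elim
      rw [ho x hx, eqv, h]; push_cast
      exact ⟨-1, by ring⟩
  let ν : F → F := fun x => if μ x = x then (w ^ ((period w x / 2 : ℕ) : ℤ)) x else μ x
  have n1 : ∀ x, μ x = x → ∃ r : ℕ, 0 < r ∧ period w x = 2 * r ∧ ν x = (w ^ (r : ℤ)) x :=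
    fun x hx => by
      obtain ⟨r, h0, h⟩ := pos x hx
      exact ⟨r, h0, h, by simp only [ν, if_pos hx, h]; congr 3; omega⟩
  have n2 : ∀ x, μ x ≠ x → ν x = μ x := fun x hx => if_neg hx
  have n3 : ∀ x, μ x = x → μ (ν x) = ν x := fun x hx => by
    obtain ⟨r, -, h, e⟩ := n1 x hx
    rw [e, st x hx, h]; simp
  have nn : ∀ x, ν (ν x) = x := fun x => by
    by_cases hx : μ x = x
    · obtain ⟨r, -, h, e⟩ := n1 x hx
      obtain ⟨r', -, h', e'⟩ := n1 _ (n3 x hx)
      rw [e, pw, h] at h'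
      rw [e', e, wa, per, h]
      exact ⟨1, by push_cast; omega⟩
    · rw [n2 x hx, n2 _ (by rw [mm]; exact Ne.symm hx), mm]
  refine ⟨ν, nn, fun k x => ?_, n2, fun x hx => ⟨n3 x hx, ?_, ?_⟩, fun x z hx hz e => ?_⟩
  · by_cases hx : μ x = x
    · simp only [ν, if_pos hx, if_pos (show μ (k • x) = k • x by rw [ms, hx]), pk, ws]
    · rw [n2 x hx, n2 _ (by rw [ms]; exact fun h => hx (smul_left_cancel k h)), ms]
  · obtain ⟨r, h0, h, e⟩ := n1 x hx
    rw [e, Ne, per, h]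
    intro hd
    have := Int.le_of_dvd (by omega) hd
    push_cast at this; omega
  · obtain ⟨r, -, -, e⟩ := n1 x hx
    rw [e]
    clear e
    induction r with
    | zero => exact .refl _
    | succ r ih =>
      refine ih.trans _ _ _ (.trans _ (opp ((w ^ (r : ℤ)) x)) _ (.rel _ _ (Or.inl rfl))
        (.rel _ _ (Or.inr ?_)))
      rw [ho x hx, hm x hx]; congr 2; push_cast; ring
  · have c1 : ∀ a, (∃ i : ℤ, a = (w ^ i) x) → ∃ i : ℤ, opp a = (w ^ i) x := by
      rintro _ ⟨i, rfl⟩; exact ⟨_, ho x hx i⟩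
    have c2 : ∀ a, (∃ i : ℤ, a = (w ^ i) x) → ∃ i : ℤ, ν a = (w ^ i) x := by
      rintro _ ⟨i, rfl⟩
      by_cases h : μ ((w ^ i) x) = (w ^ i) x
      · obtain ⟨r, -, -, e⟩ := n1 _ h
        exact ⟨_, by rw [e, wa]⟩
      · exact ⟨_, by rw [n2 _ h, hm x hx]⟩
    obtain ⟨i, rfl⟩ := (eqvGen_closed (O := fun a => ∃ i : ℤ, a = (w ^ i) x) (fun a b r => by
      rcases r with rfl | rfl
      · exact ⟨c1 a, fun h => by simpa [oo] using c1 _ h⟩
      · exact ⟨c2 a, fun h => by simpa [nn] using c2 _ h⟩) e).1 ⟨0, rfl⟩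
    obtain ⟨r, -, h, e⟩ := n1 x hx
    rw [st x hx, h] at hz
    obtain ⟨j, hj⟩ := hz
    push_cast at hj
    rw [e, per, eqv, h]
    rcases Int.even_or_odd' j with ⟨l, rfl | rfl⟩
    · exact Or.inl ⟨l, by push_cast; linarith⟩
    · exact Or.inr ⟨l, by push_cast; linarith⟩

end Pool.Agent.Lib.FBC.T7C
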