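import Pool.Agent.Lib.FBC.T7.Blue7
import Pool.Agent.Lib.FBC.T7.Flag

/-!
Interfaces inside part C.
-/

namespace Pool.Agent.Lib.FBC.T7C

open Forest Flow

variable {G : Type} [Group G] {d : Dg G} {Y : Forest d}

/-- Walls on flags: `sd ξ ζ` says that the source of `ζ` is on the side of the target of `ξ`. -/
structure Walls (s : Flow Y) (k : ℕ) (sd : s.Flag → s.Flag → Prop) : Prop where
  smul : ∀ (g : G) ξ ζ, sd (g • ξ) (g • ζ) ↔ sd ξ ζ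
  left : ∀ ξ ξ' ζ, ξ.Opp ξ' → (sd ξ ζ ↔ sd ξ' ζ)
  opp : ∀ ξ ζ ζ', Y.lev ζ.p = Y.lev ξ.p → ζ.Opp ζ' → (sd ξ ζ ↔ sd ξ ζ')
  turn : ∀ ξ ζ ζ', Y.lev ζ.p = Y.lev ξ.p → ζ'.p = ζ.q → ζ'.q = ζ.p → ζ'.x.src = ζ.x.src →
    (sd ξ ζ ↔ sd ξ ζ')
  self : ∀ ξ, ¬ sd ξ ξ
  rev : ∀ ξ, sd ξ ξ.rev
  ne : ∀ ξ ζ, Y.lev ζ.p = Y.lev ξ.p → ¬ ξ.Opp ζ → ¬ ξ.Opp ζ.rev → (sd ξ ζ ↔ sd ξ ζ.rev)
  psi : ∀ (ξ ζ ζ' : s.Flag) (a a' : Y.Dir), Y.lev ζ.p = Y.lev ξ.p → a.src = a'.src →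
    ζ.x.src = s.σ^[k] a.src → ζ'.x.src = s.σ^[k] a.src → s.Cmp k ζ.x (ζ.anc k).x a →
    s.Cmp k ζ'.x (ζ'.anc k).x a' → (sd ξ ζ ↔ sd ξ ζ')

/-- The ribbon tree whose flags are the flags of level zero. -/
structure Nat (s : Flow Y) where
  /-- the tree -/
  T : Forest (1 : Dg d.ker)
  /-- the ribbon structure -/
  R : Ribbon T
  /-- the underlying flag -/
  fl : R.Fl → s.Flag
  lev0 : ∀ a, T.lev a = 0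
  ne : Nonempty T.I
  conn : R.Conn
  inj : Function.Injective fl
  lev : ∀ ξ, Y.lev (fl ξ).p = 0
  surj : ∀ η : s.Flag, Y.lev η.p = 0 → ∃ ξ, fl ξ = η
  smul : ∀ (k : d.ker) ξ, fl (k • ξ) = (k : G) • fl ξ
  rev : ∀ ξ, fl (R.rev ξ) = (fl ξ).rev
  nx_src : ∀ ξ, (fl (R.next ξ)).x.src = (fl ξ).x.tgt
  nx_in : ∀ ξ, (fl ξ).x.tgt ≠ (fl ξ).q →
    (fl (R.next ξ)).p = (fl ξ).p ∧ (fl (R.next ξ)).q = (fl ξ).q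
  nx_end : ∀ ξ, (fl ξ).x.tgt = (fl ξ).q → (fl (R.next ξ)).p = (fl ξ).q
  src : ∀ ξ ζ, (R.dart ξ).src = (R.dart ζ).src → (fl ξ).x.src = (fl ζ).x.src
  lift : ∀ v, Y.lev v = 0 → (∃ g : G, g ≠ 1 ∧ g • v = v) →
    ∃ ξ, ∀ k : d.ker, (k : G) • v = v → k • (R.dart ξ).src = (R.dart ξ).src
  pair : ∀ ξ ζ, (fl ξ).x.src = (fl ξ).p → (fl ζ).x.src = (fl ζ).p → (fl ζ).p = (fl ξ).p →
    ζ = ξ ∨ ζ = R.next (R.rev ξ)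

def St_WALLS : Prop := ∀ (G : Type) [Group G] (d : Dg G), FC d → ∀ (Y : Forest d) (s : Flow Y),
  s.NF → ∀ k, s.Stab k → ∃ sd, Walls s k sd

def St_NAT : Prop := ∀ (G : Type) [Group G] (d : Dg G), FC d → ∀ (Y : Forest d) (s : Flow Y),
  s.NF → ∀ k, s.Pairing k → (∀ ξ ζ : s.Flag, Y.lev ξ.p = Y.lev ζ.p → ξ.Rel ζ) →
  ∀ sd, Walls s k sd → Nonempty (Nat s)

def St_PERI : Prop := ∀ (G : Type) [Group G] (d : Dg G), FC d → ∀ (Y : Forest d) (s : Flow Y),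
  s.NF → ∀ N : Nat s, ∀ x : d.ker, N.R.Peri x ↔ ∃ g : G, dg d g ≠ 0 ∧ g * x = x * g

theorem c_of (h1 : St_WALLS) (h2 : St_NAT) (h3 : St_PERI) : T7.St_C :=
  fun G _ d hd Y s hs k hk h =>
    let ⟨sd, w⟩ := h1 G d hd Y s hs k hk.stab
    let ⟨N⟩ := h2 G d hd Y s hs k hk h sd w
    ⟨N.T, N.R, N.lev0, N.ne, N.conn, h3 G d hd Y s hs N⟩

end Pool.Agent.Lib.FBC.T7C
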