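import Pool.Agent.Lib.FBC.T7.C.Nat
import Pool.Agent.Lib.FBC.T7.C.Walls
import Pool.Agent.Lib.FBC.T7.C.Peri
import Pool.Agent.Lib.FBC.T7.MKF
import Pool.Agent.Lib.FBC.T7.AXN
import Pool.Agent.Lib.FBC.T7.VCYC

/-!
The ribbon tree.
-/

namespace Pool.Agent.Lib.FBC.T7C

theorem stC : T7.St_C := c_of stWALLS (stNAT T7.stMKF) (stPERI T7.stVCYC T7.stAXN)

end Pool.Agent.Lib.FBC.T7C
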