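import Pool.Agent.Lib.FBC.T7.C.Blue
import Pool.Agent.Lib.FBC.T7.C.Arc

/-!
The involutions on flags.
-/

namespace Pool.Agent.Lib.FBC.T7C

open Forest Relation T7B

variable {G : Type} [Group G] {d : Dg G} {Y : Forest d} {s : Flow Y} {k : ℕ}

lemma ext_src {ξ ζ : s.Flag} (h1 : ξ.p = ζ.p) (h2 : ξ.q = ζ.q) (h3 : ξ.x.src = ζ.x.src) : ξ = ζ :=
  Flow.Flag.ext h1 h2 (step_unique ξ.cr (h1 ▸ h2 ▸ ζ.cr) h3)

lemma lev_x (ξ : s.Flag) : Y.lev ξ.x.src = Y.lev ξ.p := ξ.cr.lev_src.symm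

lemma lev_q (ξ : s.Flag) : Y.lev ξ.q = Y.lev ξ.p := ξ.cr.lev.symm

lemma rev_smul (g : G) (ξ : s.Flag) : (g • ξ).rev = g • ξ.rev := rfl

lemma src_ne_q (ξ : s.Flag) : ξ.x.src ≠ ξ.q := fun h => src_not_mem_H _ (h ▸ ξ.cr.2)

lemma exists_turn (ξ : s.Flag) (h : ξ.x.src ≠ ξ.p) :
    ∃ η : s.Flag, η.p = ξ.q ∧ η.q = ξ.p ∧ η.x.src = ξ.x.src :=
  let ⟨e, h1, h2⟩ := exists_step (lev_x ξ) h
  ⟨⟨_, _, e, ξ.wd.symm, h2.extend_left ξ.cr.btw_src.symm⟩, rfl, rfl, h1⟩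

open Classical in
/-- the turn of the wedge at the source of a flag -/
noncomputable def th (ξ : s.Flag) : s.Flag :=
  if h : ξ.x.src = ξ.p then ξ else (exists_turn ξ h).choose

lemma th_start {ξ : s.Flag} (h : ξ.x.src = ξ.p) : th ξ = ξ := dif_pos h

lemma th_spec {ξ : s.Flag} (h : ξ.x.src ≠ ξ.p) :
    (th ξ).p = ξ.q ∧ (th ξ).q = ξ.p ∧ (th ξ).x.src = ξ.x.src := by
  rw [th, dif_neg h]; exact (exists_turn ξ h).choose_spec

lemma th_eq_iff {ξ : s.Flag} : th ξ = ξ ↔ ξ.x.src = ξ.p :=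
  ⟨fun h => by_contra fun e => wd_ne ξ.wd (by rw [← (th_spec e).1, h]), th_start⟩

lemma th_src (ξ : s.Flag) : (th ξ).x.src = ξ.x.src := by
  by_cases h : ξ.x.src = ξ.p
  · rw [th_start h]
  · exact (th_spec h).2.2

lemma th_th (ξ : s.Flag) : th (th ξ) = ξ := by
  by_cases h : ξ.x.src = ξ.p
  · rw [th_start h, th_start h]
  · obtain ⟨h1, h2, h3⟩ := th_spec h
    obtain ⟨k1, k2, k3⟩ := th_spec (ξ := th ξ) (by rw [h3, h1]; exact src_ne_q ξ)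
    exact ext_src (k1.trans h2) (k2.trans h1) (k3.trans h3)

lemma th_smul (g : G) (ξ : s.Flag) : th (g • ξ) = g • th ξ := by
  by_cases h : ξ.x.src = ξ.p
  · rw [th_start h, th_start (by simp [h])]
  · obtain ⟨h1, h2, h3⟩ := th_spec h
    obtain ⟨k1, k2, k3⟩ := th_spec (ξ := g • ξ) (by simpa using h)
    exact ext_src (by simp [k1, h1]) (by simp [k2, h2]) (by simp [k3, h3])

lemma th_lev (ξ : s.Flag) : Y.lev (th ξ).p = Y.lev ξ.p := by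
  rw [← lev_x, th_src, lev_x]

/-- the other flag of a pair -/
noncomputable def op (hk : s.Pairing k) (ξ : s.Flag) : s.Flag := (hk.two ξ).choose

lemma op_ne (hk : s.Pairing k) (ξ : s.Flag) : op hk ξ ≠ ξ := (hk.two ξ).choose_spec.1.1

lemma opp_op (hk : s.Pairing k) (ξ : s.Flag) : ξ.Opp (op hk ξ) := (hk.two ξ).choose_spec.1.2

lemma eq_op (hk : s.Pairing k) {ξ ζ : s.Flag} (h : ζ ≠ ξ) (h' : ξ.Opp ζ) : ζ = op hk ξ :=
  (hk.two ξ).choose_spec.2 ζ ⟨h, h'⟩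

lemma op_op (hk : s.Pairing k) (ξ : s.Flag) : op hk (op hk ξ) = ξ :=
  (eq_op hk (op_ne hk ξ).symm (opp_symm (opp_op hk ξ))).symm

lemma op_x (hk : s.Pairing k) (ξ : s.Flag) : (op hk ξ).x = ξ.x := (opp_op hk ξ).1.symm

lemma op_lev (hk : s.Pairing k) (ξ : s.Flag) : Y.lev (op hk ξ).p = Y.lev ξ.p := by
  rw [← lev_x, op_x, lev_x]

lemma op_smul (hk : s.Pairing k) (g : G) (ξ : s.Flag) : op hk (g • ξ) = g • op hk ξ :=
  (eq_op hk (fun h => op_ne hk ξ (smul_left_cancel g h)) (opp_smul g (opp_op hk ξ))).symm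

lemma op_rev (hk : s.Pairing k) (ξ : s.Flag) : op hk ξ.rev = (op hk ξ).rev :=
  (eq_op hk (fun h => op_ne hk ξ (by simpa using congrArg Flow.Flag.rev h))
    (opp_rev (opp_op hk ξ))).symm

/-- ancestors of first darts are first darts -/
lemma anc_start (T : s.TT) (n : ℕ) {ξ : s.Flag} (h : ξ.x.src = ξ.p) :
    (ξ.anc n).x.src = (ξ.anc n).p := by
  obtain ⟨h1, h2, h3⟩ := anc_up n ξ
  generalize ξ.anc n = η at *
  obtain ⟨y, w⟩ := η.wd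
  rcases arm w η.cr with o | o
  · by_contra e
    have l := T2.lp_left w.2.1 o.btw_src
    have b1 := (w.2.1.sa_sub (btw_left w.1.lev1) o.btw_tgt).sa_btw o.btw1 n
    have b2 := Cross.btw_src h3
    rw [h, ← h1] at b2
    exact T2.exp_ne T l (Ne.symm e) n (b1.antisymm' b2)
  · obtain ⟨m, k0, k1, k2, -⟩ := T2.inp_it T w n
    have b := (w.2.2.1.lh_cross o h3).btw_src
    rw [h, ← h1] at b
    refine (T2.inp_ne k0 ?_).elim
    rcases k2.total b with t | t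
    · exact k0.1.antisymm' (b.trans_left' t)
    · exact (k1.symm.antisymm t).symm

/-- flags of level zero -/
def F0 (s : Flow Y) : Type := {ξ : s.Flag // Y.lev ξ.p = 0}

lemma dg_ker (u : d.ker) : dg d (u : G) = 0 := mem_ker_iff.1 u.2

instance : MulAction d.ker (F0 s) where
  smul u ξ := ⟨(u : G) • ξ.1, by rw [Flow.Flag.smul_p, lev_smul', ξ.2, dg_ker]; rfl⟩
  one_smul ξ := Subtype.ext (one_smul G ξ.1)
  mul_smul a b ξ := Subtype.ext (mul_smul (a : G) (b : G) ξ.1)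

@[simp] lemma smul_val (u : d.ker) (ξ : F0 s) : (u • ξ).1 = (u : G) • ξ.1 := rfl

/-- reversal -/
def rev0 (ξ : F0 s) : F0 s := ⟨ξ.1.rev, (lev_q ξ.1).trans ξ.2⟩

/-- turn -/
noncomputable def th0 (ξ : F0 s) : F0 s := ⟨th ξ.1, (th_lev _).trans ξ.2⟩

/-- partner -/
noncomputable def op0 (hk : s.Pairing k) (ξ : F0 s) : F0 s := ⟨op hk ξ.1, (op_lev _ _).trans ξ.2⟩

lemma rev0_rev0 (ξ : F0 s) : rev0 (rev0 ξ) = ξ := Subtype.ext (rev_rev _)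

lemma th0_eq_iff {ξ : F0 s} : th0 ξ = ξ ↔ ξ.1.x.src = ξ.1.p := Subtype.ext_iff.trans th_eq_iff

lemma fin0 (hd : Function.Surjective d) (hs : s.NF) :
    ∃ S : Finset (F0 s), ∀ ξ : F0 s, ∃ u : d.ker, u • ξ ∈ S := by
  classical
  obtain ⟨S, hS⟩ := fin_flag_orbits hs
  have : ∀ η : s.Flag, ∃ g : G, Y.lev (g • η).p = 0 := fun η =>
    let ⟨g, hg⟩ := hd (.ofAdd (- Y.lev η.p))
    ⟨g, by rw [Flow.Flag.smul_p, lev_smul']; simp [dg, hg]⟩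
  choose t ht using this
  refine ⟨S.image fun η => ⟨t η • η, ht η⟩, fun ξ => ?_⟩
  obtain ⟨g, hg⟩ := hS ξ.1
  have := ht (g • ξ.1)
  rw [← mul_smul, Flow.Flag.smul_p, lev_smul', ξ.2, zero_add] at this
  exact ⟨⟨_, mem_ker_iff.2 this⟩, Finset.mem_image.2 ⟨_, hg, Subtype.ext (mul_smul _ _ _).symm⟩⟩

/-- the completed turn -/
structure Nu (hk : s.Pairing k) (ν : F0 s → F0 s) : Prop where
  inv : ∀ ξ, ν (ν ξ) = ξ
  smul : ∀ (u : d.ker) ξ, ν (u • ξ) = u • ν ξ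
  th : ∀ ξ, ξ.1.x.src ≠ ξ.1.p → ν ξ = th0 ξ
  st : ∀ ξ, ξ.1.x.src = ξ.1.p → (ν ξ).1.x.src = (ν ξ).1.p
  ne : ∀ ξ, ν ξ ≠ ξ
  ch : ∀ ξ, EqvGen (fun a b => b = op0 hk a ∨ b = th0 a) ξ (ν ξ)
  two : ∀ ξ ζ, ξ.1.x.src = ξ.1.p → ζ.1.x.src = ζ.1.p →
    EqvGen (fun a b => b = op0 hk a ∨ b = ν a) ξ ζ → ζ = ξ ∨ ζ = ν ξ

lemma exists_nu (hd : Function.Surjective d) (hs : s.NF) (hk : s.Pairing k) : ∃ ν, Nu hk ν := by
  obtain ⟨ν, h1, h2, h3, h4, h5⟩ := arc (K := d.ker) (op0 hk) th0 (fin0 hd hs)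
    (fun x => Subtype.ext (op_op hk _)) (fun x h => op_ne hk _ (congrArg Subtype.val h))
    (fun x => Subtype.ext (th_th _)) (fun u x => Subtype.ext (op_smul hk _ _))
    (fun u x => Subtype.ext (th_smul _ _))
  refine ⟨ν, h1, h2, fun ξ h => h3 ξ (mt th0_eq_iff.1 h),
    fun ξ h => th0_eq_iff.1 (h4 ξ (th0_eq_iff.2 h)).1, fun ξ => ?_, fun ξ => ?_,
    fun ξ ζ h h' => h5 ξ ζ (th0_eq_iff.2 h) (th0_eq_iff.2 h')⟩
  · by_cases h : th0 ξ = ξ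
    · exact (h4 ξ h).2.1
    · rwa [h3 ξ h]
  · by_cases h : th0 ξ = ξ
    · exact (h4 ξ h).2.2
    · exact .rel _ _ (Or.inr (h3 ξ h))

end Pool.Agent.Lib.FBC.T7C
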